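import Mathlib
import Pool.Agent.N759.UC.Finite
import Pool.Agent.H715R2.CountableValues
import Pool.Agent.Run7.h587.MorseHedlund

/-! # MP_edeaa2_an: codes in one direction

Let `d ≥ 3` and let `a` be a positive diagonal `d × d` matrix of determinant one, one of whose
diagonal entries occurs with a multiplicity prime to `d`; if `d` is prime this is every `a ≠ 1`.
Let `g` be a real `d × d` matrix with determinant `±δ` and `F` the product of the linear forms given
by its rows, `|F| ≥ ν > 0` at the nonzero integer points. There is a constant `C = C(d, δ, ν)` such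
that for all integers `m` there is `V(m) ∈ GL_d(ℤ)` for which the entries of `a ^ m g V(m)` are at
most `C` in absolute value. The code of such a family is the sequence of the matrices
`V(m)⁻¹ V(m + 1)`, a sequence of finitely many symbols.

We show: for all `C, n` there are `M` and a finite set `S` of such matrices, whose forms are all
proportional to integral forms, with the following property. Let `g` be any matrix as above which is
not equivalent to an element of `S` (under diagonal matrices of determinant `±1` and `GL_d(ℤ)`), and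
let `V(m)`, `m₀ ≤ m ≤ m₀ + M`, be any piece of length `M` of a family for `g` with the constant `C`.
Its code has no period `q ≤ n`, and it contains at least `n + 1` different blocks of length `n`.

This holds for all counterexamples to the conjecture of Cassels and Swinnerton-Dyer, with the same
`M`, and unconditionally for all forms which are proportional to integral forms outside finitely
many classes; so a form which is bounded away from zero belongs to an integral form in one of finitely
many classes as soon as the bases along one piece of length `M` of one ray of its orbit are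
repetitive.

Proof. A window with few blocks contains a long period (Morse and Hedlund). At the centres of longer
and longer windows with the same period the orbits have a limit `h`, for which all the `h U ^ j`,
`j ∈ ℤ`, are bounded up to the diagonal factors `a ^ (- j q)`, for one matrix `U ∈ GL_d(ℤ)`. By the
condition on the multiplicities the form of `h` is proportional to an integral form, and the
isolation theorem of Cassels and Swinnerton-Dyer gives that the orbits are those of finitely many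
integral forms (library `N759/UC`, applied to the two-dimensional arrays on
`a ^ (m + √2 n)`). -/

set_option autoImplicit false

open Filter Topology Pool.Agent.Run7.h587

namespace Pool.Agent.Results.MP_edeaa2_an.DirectionalCodes

/-- the product of the linear forms given by the rows of `g`, at an integer point -/
noncomputable def F {d : ℕ} (g : Matrix (Fin d) (Fin d) ℝ) (x : Fin d → ℤ) : ℝ :=
  ∏ i : Fin d, ∑ j : Fin d, g i j * (x j : ℝ)

/-- the form is proportional to an integral form -/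
def Integral {d : ℕ} (g : Matrix (Fin d) (Fin d) ℝ) : Prop :=
  ∃ c : ℝ, c ≠ 0 ∧ ∀ m : Fin d →₀ ℕ, ∃ z : ℤ, MvPolynomial.coeff m
    (c • (∏ i : Fin d, ∑ j : Fin d,
      MvPolynomial.C (g i j) * MvPolynomial.X j : MvPolynomial (Fin d) ℝ)) = (z : ℝ)

/-- the matrices with absolute determinant `δ` and form at least `ν` in absolute value at the nonzero
integer points -/
def System (d : ℕ) (δ ν : ℝ) : Set (Matrix (Fin d) (Fin d) ℝ) :=
  {g | |g.det| = δ ∧ ∀ x : Fin d → ℤ, x ≠ 0 → ν ≤ |F g x|}

/-- `g` is obtained from `g'` by a diagonal matrix of determinant `±1` and an element of `GL_d(ℤ)` -/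
def Equivalent {d : ℕ} (g g' : Matrix (Fin d) (Fin d) ℝ) : Prop :=
  ∃ (c : Fin d → ℝ) (γ : Matrix (Fin d) (Fin d) ℤ), |∏ i, c i| = 1 ∧ |γ.det| = 1 ∧
    g = Matrix.diagonal c * g' * γ.map (Int.cast : ℤ → ℝ)

/-- For `m₀ ≤ m ≤ m₀ + M` the matrix `V m` has determinant `±1`, and the entries of
`a ^ m g V(m)` are at most `C` in absolute value. -/
def Good {d : ℕ} (g : Matrix (Fin d) (Fin d) ℝ) (a : Fin d → ℝ) (C : ℝ)
    (V : ℤ → Matrix (Fin d) (Fin d) ℤ) (m₀ : ℤ) (M : ℕ) : Prop :=
  ∀ m : ℤ, m₀ ≤ m → m ≤ m₀ + M → |(V m).det| = 1 ∧ ∀ i k,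
    |(Matrix.diagonal (fun i => a i ^ m) * g * (V m).map (Int.cast : ℤ → ℝ)) i k| ≤ C

/-- the code -/
noncomputable def code {d : ℕ} (V : ℤ → Matrix (Fin d) (Fin d) ℤ) (m : ℤ) :
    Matrix (Fin d) (Fin d) ℤ :=
  (V m)⁻¹ * V (m + 1)

/-- the block of length `n` of the code at the position `m` -/
noncomputable def block {d : ℕ} (V : ℤ → Matrix (Fin d) (Fin d) ℤ) (n : ℕ) (m : ℤ) :
    Fin n → Matrix (Fin d) (Fin d) ℤ :=
  fun j => code V (m + (j : ℕ))

/-- there is a family for `g` and a window of side `M` in which the code has a period `q ≤ n` -/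
def Bad {d : ℕ} (a : Fin d → ℝ) (C : ℝ) (n : ℕ) (g : Matrix (Fin d) (Fin d) ℝ) (M : ℕ) : Prop :=
  ∃ V m₀, Good g a C V m₀ M ∧ ∃ q : ℕ, 0 < q ∧ q ≤ n ∧
    ∀ m : ℤ, m₀ ≤ m → m + q < m₀ + M → code V m = code V (m + q)

/-- sequences of bad matrices -/
theorem bad_seq {d : ℕ} (hd : 3 ≤ d) (a : Fin d → ℝ) (ha : ∀ i, 0 < a i)
    (ha1 : ∏ i, a i = 1) (hab : ∃ r : ℝ, Nat.Coprime (Nat.card {i // a i = r}) d)
    {δ ν : ℝ} (hδ : 0 < δ) (hν : 0 < ν) (C : ℝ) (n : ℕ)
    (g : ℕ → Matrix (Fin d) (Fin d) ℝ) (N : ℕ → ℕ) (hN : ∀ i, i ≤ N i)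
    (hg : ∀ i, |(g i).det| = δ) (hnu : ∀ i, H715R2.HasNu (g i) ν)
    (hbad : ∀ i, Bad a C n (g i) (N i)) :
    ∃ s : ℕ → ℕ, (∀ i, i ≤ s i) ∧ (∀ i, H715R2.PropInt (g (s i))) ∧
      ∀ i j, Pool.Agent.N759.UC.Eqv (g (s i)) (g (s j)) := by
  classical
  choose V m₀ hV q hq hqn hper using hbad
  obtain ⟨R, hR⟩ := H715R2.exists_bound (d := d) (by omega) δ ν hδ hν
  -- the two-dimensional diagonal group
  set τ : (Fin 2 → ℤ) → ℝ := fun z => (z 0 : ℝ) + Real.sqrt 2 * (z 1 : ℝ) with hτ
  have hτadd : ∀ z w, τ (z + w) = τ z + τ w := by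
    intro z w
    simp only [hτ, Pi.add_apply]
    push_cast
    ring
  have hτ0 : ∀ z : Fin 2 → ℤ, z ≠ 0 → τ z ≠ 0 := by
    intro z hz h0
    by_cases h1 : z 1 = 0
    · apply hz
      simp only [hτ, h1, Int.cast_zero, mul_zero, add_zero, Int.cast_eq_zero] at h0
      funext i
      fin_cases i
      · exact h0
      · exact h1
    · have h2 : (z 1 : ℝ) ≠ 0 := by exact_mod_cast h1
      have h3 : Real.sqrt 2 = ((-(z 0) : ℤ) : ℝ) / ((z 1 : ℤ) : ℝ) := by
        rw [eq_div_iff h2]
        simp only [hτ] at h0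
        push_cast
        linarith
      have h4 := irrational_sqrt_two
      rw [h3] at h4
      exact h4 ⟨((-(z 0) : ℤ) : ℚ) / ((z 1 : ℤ) : ℚ), by push_cast; ring⟩
  set D : (Fin 2 → ℤ) → Fin d → ℝ := fun z i => a i ^ τ z with hD
  have hD0 : ∀ z i, 0 < D z i := fun z i => Real.rpow_pos_of_pos (ha i) _
  have hDadd : ∀ z w i, D (z + w) i = D z i * D w i := by
    intro z w i
    simp only [hD]
    rw [hτadd, Real.rpow_add (ha i)]
  have hDprod : ∀ z, ∏ i, D z i = 1 := by
    intro z
    simp only [hD]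
    rw [Real.finsetProd_rpow _ _ (fun i _ => (ha i).le), ha1, Real.one_rpow]
  have hcop : ∀ z : Fin 2 → ℤ, z ≠ 0 →
      ∃ r : ℝ, Nat.Coprime (Finset.univ.filter fun i => D z i = r).card d := by
    intro z hz
    obtain ⟨r, hr⟩ := hab
    rw [Nat.card_eq_fintype_card, Fintype.card_subtype] at hr
    have hne : (Finset.univ.filter fun i => a i = r).Nonempty := by
      rw [← Finset.card_pos]
      rcases Nat.eq_zero_or_pos (Finset.univ.filter fun i => a i = r).card with h0 | h0
      · rw [h0, Nat.coprime_zero_left] at hr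
        omega
      · exact h0
    obtain ⟨i₀, hi₀⟩ := hne
    have hi₀' : a i₀ = r := (Finset.mem_filter.1 hi₀).2
    refine ⟨r ^ τ z, ?_⟩
    have : (Finset.univ.filter fun i => D z i = r ^ τ z) = Finset.univ.filter fun i => a i = r := by
      refine Finset.filter_congr fun i _ => ?_
      simp only [hD]
      constructor
      · intro h
        rw [← hi₀'] at h ⊢
        exact (Real.rpow_left_inj (ha i).le (ha i₀).le (hτ0 z hz)).1 h
      · intro h
        rw [h]
    rw [this]
    exact hr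
  -- the bases
  have hex : ∀ (i : ℕ) (z : Fin 2 → ℤ), ∃ u : (Matrix (Fin d) (Fin d) ℤ)ˣ,
      (∀ t k, |(Matrix.diagonal (D z) * g i * H715R2.zR (u : Matrix (Fin d) (Fin d) ℤ)) t k|
        ≤ max C R) ∧
      (z 1 = 0 → m₀ i ≤ z 0 → z 0 ≤ m₀ i + (N i : ℕ) → (u : Matrix (Fin d) (Fin d) ℤ) =
        V i (z 0)) := by
    intro i z
    by_cases h : z 1 = 0 ∧ m₀ i ≤ z 0 ∧ z 0 ≤ m₀ i + (N i : ℕ)
    · obtain ⟨h1, h2, h3⟩ := h
      have h4 := hV i (z 0) h2 h3
      obtain ⟨u, hu⟩ := (Matrix.isUnit_iff_isUnit_det _).2 (Int.isUnit_iff_abs_eq.2 h4.1)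
      refine ⟨u, fun t k => ?_, fun _ _ _ => hu⟩
      have h5 := h4.2 t k
      have h6 : (D z) = fun i => a i ^ (z 0) := by
        funext i
        simp only [hD, hτ, h1, Int.cast_zero, mul_zero, add_zero]
        exact Real.rpow_intCast _ _
      rw [h6, hu]
      exact h5.trans (le_max_left _ _)
    · obtain ⟨γ, hγ, hγR⟩ := hR (Matrix.diagonal (D z) * g i)
        (by rw [Matrix.det_mul, Matrix.det_diagonal, hDprod, one_mul]; exact hg i) (fun x hx => by
          rw [H715R2.FF_diag_mul, hDprod, one_mul]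
          exact hnu i x hx)
      obtain ⟨u, hu⟩ := (Matrix.isUnit_iff_isUnit_det _).2 hγ
      refine ⟨u, fun t k => ?_, fun h1 h2 h3 => absurd ⟨h1, h2, h3⟩ h⟩
      rw [hu]
      exact (hγR t k).trans (le_max_right _ _)
  choose V' hV' hV'2 using hex
  have hn0 : 0 < n := lt_of_lt_of_le (hq 0) (hqn 0)
  refine Pool.Agent.N759.UC.seq_main hd hδ hν D hD0 hDadd hDprod hcop (C := max C R)
    (S' := (n : ℤ)) g hg hnu V' (fun i z t k => hV' i z t k) (fun m => ?_)
  refine ⟨m * n, Nat.le_mul_of_pos_right m hn0, ![m₀ (m * n), 0], ![(q (m * n) : ℤ), 0], ?_, ?_, ?_⟩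
  · intro h0
    have h1 := congrFun h0 0
    have h2 := hq (m * n)
    simp at h1
    omega
  · intro i
    have h2 := hqn (m * n)
    fin_cases i
    · simp
      exact h2
    · simp
  · intro j hj
    set k := m * n with hk
    -- the group elements on the line
    set W : ℤ → (Matrix (Fin d) (Fin d) ℤ)ˣ := fun x => V' k ![x, 0] with hW
    have hWV : ∀ x : ℤ, m₀ k ≤ x → x ≤ m₀ k + (N k : ℕ) →
        ((W x : (Matrix (Fin d) (Fin d) ℤ)ˣ) : Matrix (Fin d) (Fin d) ℤ) = V k x := by
      intro x h1 h2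
      have := hV'2 k ![x, 0] (by simp) (by simpa using h1) (by simpa using h2)
      simpa using this
    have hcode : ∀ x : ℤ, m₀ k ≤ x → x + 1 ≤ m₀ k + (N k : ℕ) →
        (((W x)⁻¹ * W (x + 1) : (Matrix (Fin d) (Fin d) ℤ)ˣ) : Matrix (Fin d) (Fin d) ℤ)
          = code (V k) x := by
      intro x h1 h2
      unfold code
      rw [Units.val_mul, Matrix.coe_units_inv, hWV x h1 (by omega), hWV (x + 1) (by omega) h2]
    have hpow := powers_of_period W (m₀ k) (N k) (q k) (fun x h1 h2 => by
      apply Units.ext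
      rw [hcode x h1 (by omega), hcode (x + q k) (by omega) (by omega)]
      exact hper k x h1 h2) j (by
        have h1 : j * q k ≤ m * n := Nat.mul_le_mul hj (hqn k)
        exact h1.trans (hN k))
    have e1 : (![m₀ k, 0] + j • ![(q k : ℤ), 0] : Fin 2 → ℤ) = ![m₀ k + j * (q k : ℤ), 0] := by
      funext i
      fin_cases i <;> simp
    have e2 : (![m₀ k, 0] + ![(q k : ℤ), 0] : Fin 2 → ℤ) = ![m₀ k + (q k : ℤ), 0] := by
      funext i
      fin_cases i <;> simp
    rw [e1, e2]
    exact hpow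

/-- **Codes in one direction.** -/
theorem result (d : ℕ) (hd : 3 ≤ d) (a : Fin d → ℝ) (ha : ∀ i, 0 < a i) (ha1 : ∏ i, a i = 1)
    (hab : (d.Prime ∧ ∃ i, a i ≠ 1) ∨ ∃ r : ℝ, Nat.Coprime (Nat.card {i // a i = r}) d)
    (δ ν : ℝ) (hδ : 0 < δ) (hν : 0 < ν) :
    (∃ C : ℝ, ∀ g ∈ System d δ ν, ∃ V, ∀ (m₀ : ℤ) (M : ℕ), Good g a C V m₀ M) ∧
    ∀ (C : ℝ) (n : ℕ), ∃ (M : ℕ) (S : Set (Matrix (Fin d) (Fin d) ℝ)), S.Finite ∧
      (∀ g ∈ S, g ∈ System d δ ν ∧ Integral g) ∧
      ∀ g ∈ System d δ ν, (Integral g ∧ ∃ g' ∈ S, Equivalent g g') ∨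
        ∀ V m₀, Good g a C V m₀ M →
          (∀ q : ℕ, 0 < q → q ≤ n → ∃ m : ℤ, m₀ ≤ m ∧ m + q < m₀ + M ∧
            code V m ≠ code V (m + q)) ∧
          ((n + 1 : ℕ) : ℕ∞) ≤ {B | ∃ m : ℤ, m₀ ≤ m ∧ m + n ≤ m₀ + M ∧ B = block V n m}.encard := by
  -- for prime `d` the second hypothesis follows from the first
  have hab' : ∃ r : ℝ, Nat.Coprime (Nat.card {i // a i = r}) d := by
    rcases hab with ⟨hp, i₀, hi₀⟩ | hab
    swap
    · exact hab
    classical
    obtain ⟨i, t, hit⟩ : ∃ i t, a i ≠ a t := by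
      by_contra hcon
      push Not at hcon
      have h2 : (a i₀) ^ d = 1 := by
        rw [← ha1, Finset.prod_congr rfl fun t _ => hcon t i₀, Finset.prod_const,
          Finset.card_univ, Fintype.card_fin]
      exact hi₀ ((pow_eq_one_iff_of_nonneg (ha i₀).le (by omega)).1 h2)
    refine ⟨a i, ?_⟩
    rw [Nat.card_eq_fintype_card, Fintype.card_subtype]
    have h1 : 0 < (Finset.univ.filter fun t => a t = a i).card :=
      Finset.card_pos.2 ⟨i, by simp⟩
    have h2 : (Finset.univ.filter fun t => a t = a i).card < d := by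
      have h3 : (Finset.univ.filter fun t => a t = a i) ⊂ Finset.univ := by
        refine ⟨Finset.subset_univ _, fun hsub => ?_⟩
        have h4 := hsub (Finset.mem_univ t)
        rw [Finset.mem_filter] at h4
        exact hit h4.2.symm
      have h5 := Finset.card_lt_card h3
      rwa [Finset.card_univ, Fintype.card_fin] at h5
    exact (Nat.coprime_of_lt_prime h1.ne' h2 hp).symm
  constructor
  · obtain ⟨R, hR⟩ := H715R2.exists_bound (d := d) (by omega) δ ν hδ hν
    refine ⟨R, fun g hg => ?_⟩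
    have hex : ∀ m : ℤ, ∃ V : Matrix (Fin d) (Fin d) ℤ, |V.det| = 1 ∧ ∀ i k,
        |(Matrix.diagonal (fun i => a i ^ m) * g * V.map (Int.cast : ℤ → ℝ)) i k| ≤ R := by
      intro m
      have hprod : ∏ i, (a i ^ m) = 1 := by
        rw [Finset.prod_zpow, ha1, one_zpow]
      obtain ⟨γ, hγ, hγR⟩ := hR (Matrix.diagonal (fun i => a i ^ m) * g)
        (by rw [Matrix.det_mul, Matrix.det_diagonal, hprod, one_mul]; exact hg.1) (fun x hx => by
          rw [H715R2.FF_diag_mul, hprod, one_mul]
          exact hg.2 x hx)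
      exact ⟨γ, Int.isUnit_iff_abs_eq.1 hγ, hγR⟩
    choose V hV hV2 using hex
    exact ⟨V, fun m₀ M m _ _ => ⟨hV m, hV2 m⟩⟩
  · intro C n
    obtain ⟨M, S, hS, hSm, hM⟩ := Pool.Agent.N759.UC.finite_classes d δ ν (Bad a C n)
      (fun g N hN hg hnu hbad => bad_seq hd a ha ha1 hab' hδ hν C n g N hN hg hnu hbad)
    refine ⟨M + 2 * n, S, hS, fun g hg => ⟨⟨(hSm g hg).1, (hSm g hg).2.1⟩, (hSm g hg).2.2⟩,
      fun g hg => ?_⟩
    by_cases hbad : Bad a C n g M
    · exact Or.inl (hM g hg.1 hg.2 hbad)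
    right
    intro V m₀ hV
    constructor
    · intro q hq hqn
      by_contra hcon
      push Not at hcon
      exact hbad ⟨V, m₀, fun m h1 h2 => hV m h1 (by push_cast; omega), q, hq, hqn,
        fun m h1 h2 => hcon m h1 (by push_cast; omega)⟩
    · by_contra hcon
      push Not at hcon
      have hset : {B | ∃ m : ℤ, m₀ ≤ m ∧ m + n ≤ m₀ + ((M + 2 * n : ℕ) : ℤ) ∧ B = block V n m}
          = blks (code V) m₀ (M + n) n := by
        ext B
        constructor
        · rintro ⟨m, h1, h2, rfl⟩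
          exact ⟨m, ⟨h1, by push_cast at h2 ⊢; omega⟩, rfl⟩
        · rintro ⟨m, ⟨h1, h2⟩, rfl⟩
          exact ⟨m, h1, by push_cast at h2 ⊢; omega, rfl⟩
      rw [hset] at hcon
      have hle : (blks (code V) m₀ (M + n) n).ncard ≤ n := by
        have h1 := (blks_finite (code V) m₀ (M + n) n).cast_ncard_eq
        rw [← h1] at hcon
        have h2 : (blks (code V) m₀ (M + n) n).ncard < n + 1 := by exact_mod_cast hcon
        omega
      obtain ⟨q, m, hq, hqn, hm, hm', hper⟩ := morse_hedlund (code V) m₀ (M + n) n (by omega) hle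
      refine hbad ⟨V, m, fun t h1 h2 => hV t (by omega) (by push_cast; omega), q, hq, hqn,
        fun t h1 h2 => hper t h1 (by push_cast; omega)⟩

end Pool.Agent.Results.MP_edeaa2_an.DirectionalCodes
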