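import Mathlib
import Pool.Agent.Run7.h245.EI.Iso

/-! # MP_edeaa2_an: an effective isolation theorem for compact orbits

Let `d ≥ 3`. Let `A y` be a periodic orbit, that is, the lattice `y ℤ^d` is mapped onto itself by
`diag (exp u_1), …, diag (exp u_{d-1})` with `u_1, …, u_{d-1}` linearly independent, and let `R ≥ 1`
bound the coordinates of all `u_k`. Suppose that the entries of `y` and of its inverse are bounded
by `B`. There is a constant `C`, depending on `d` and `B` only, such that the following holds.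

If `F_g`, the product of the linear forms given by the rows of `g`, satisfies `|F_g(p)| ≥ ν` at all
nonzero integer points `p`, then no point of the orbit `A g` lies at distance at most
`exp (- exp (C R² / ν))` from `y`, unless the two orbits coincide.

More precisely, if `g` is at distance at most `δ` and at least `m > 0` from `y` and from `D y`,
respectively, `D` the algebra of diagonal matrices, then the values of `F_g` at the nonzero integer
points of the box of size `1 / m` come within `C R² / log log (1 / δ)` of every real number of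
absolute value at most `B`. -/

open Matrix

namespace Pool.Agent.Results.MP_edeaa2_an.EffectiveIsolation

/-- The value at the integer point `x` of the product of the linear forms given by the rows
of `g`. -/
noncomputable def form {d : ℕ} (g : Matrix (Fin d) (Fin d) ℝ) (x : Fin d → ℤ) : ℝ :=
  ∏ i, ∑ j, g i j * (x j : ℝ)

/-- The diagonal matrix `diag (exp v_1, …, exp v_d)` maps the lattice `y ℤ^d` onto itself. -/
def Stabilizes {d : ℕ} (v : Fin d → ℝ) (y : Matrix (Fin d) (Fin d) ℝ) : Prop :=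
  ∃ γ : Matrix (Fin d) (Fin d) ℤ, IsUnit γ.det ∧
    y * γ.map (Int.cast : ℤ → ℝ) = diagonal (fun k => Real.exp (v k)) * y

theorem result (d : ℕ) (hd : 3 ≤ d) (B : ℝ) (hB : 1 ≤ B) : ∃ C : ℝ, 1 ≤ C ∧
    ∀ (R : ℝ) (y : Matrix (Fin d) (Fin d) ℝ) (u : Fin (d - 1) → Fin d → ℝ), 1 ≤ R →
      y.det ≠ 0 → (∀ k l, |y k l| ≤ B) → (∀ k l, |y⁻¹ k l| ≤ B) →
      (∀ i, Stabilizes (u i) y) → (∀ i k, |u i k| ≤ R) → LinearIndependent ℝ u →
    (∀ (g : Matrix (Fin d) (Fin d) ℝ) (ν : ℝ), 0 < ν → ν ≤ 1 →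
      (∀ p : Fin d → ℤ, p ≠ 0 → ν ≤ |form g p|) →
      ∀ (a : Fin d → ℝ) (γ : Matrix (Fin d) (Fin d) ℤ), |∏ i, a i| = 1 → IsUnit γ.det →
      (∀ k l, |(diagonal a * g * γ.map (Int.cast : ℤ → ℝ)) k l - y k l| ≤
        Real.exp (-Real.exp (C * R ^ 2 / ν))) →
      ∃ b : Fin d → ℝ, g * γ.map (Int.cast : ℤ → ℝ) = diagonal b * y) ∧
    (∀ (g : Matrix (Fin d) (Fin d) ℝ) (δ m : ℝ), 0 < δ → (∀ k l, |g k l - y k l| ≤ δ) →
      Real.exp (C * R ^ 2) ≤ Real.log (1 / δ) → 0 < m →
      (∀ a : Fin d → ℝ, ∃ k l, m ≤ |g k l - a k * y k l|) →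
      ∀ τ : ℝ, |τ| ≤ B → ∃ p : Fin d → ℤ, p ≠ 0 ∧ (∀ k, |(p k : ℝ)| ≤ 1 / m) ∧
        |form g p - τ| ≤ C * R ^ 2 / Real.log (Real.log (1 / δ))) := by
  obtain ⟨C, hC1, hC⟩ := Run7.h245.EI.main d hd B hB
  refine ⟨2 * C, by linarith, ?_⟩
  intro R y u hR hy hyB hyB' hu huR hind
  have hUn : Run7.h245.EI.Un y R u := ⟨hu, huR, hind⟩
  have hC0 : 0 < C := by linarith
  have hR2 : 1 ≤ R ^ 2 := one_le_pow₀ hR
  have hmain := hC R y u hR hy hyB hyB' hUn
  refine ⟨?_, ?_⟩
  · intro g ν hν hν1 hval a γ ha hγ hclose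
    set h := diagonal a * g * γ.map (Int.cast : ℤ → ℝ) with hh
    have ha0 : ∀ i, a i ≠ 0 := by
      intro i h0
      have : ∏ i, a i = 0 := Finset.prod_eq_zero (Finset.mem_univ i) h0
      rw [this, abs_zero] at ha
      exact zero_ne_one ha
    by_cases hb : ∃ b : Fin d → ℝ, h = diagonal b * y
    · obtain ⟨b, hb⟩ := hb
      refine ⟨fun i => (a i)⁻¹ * b i, ?_⟩
      have h1 : diagonal (fun i => (a i)⁻¹) * diagonal a = (1 : Matrix (Fin d) (Fin d) ℝ) := by
        rw [diagonal_mul_diagonal]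
        have : (fun i => (a i)⁻¹ * a i) = fun _ => (1 : ℝ) := by
          funext i
          exact inv_mul_cancel₀ (ha0 i)
        rw [this, diagonal_one]
      have h2 : diagonal (fun i => (a i)⁻¹ * b i) = diagonal (fun i => (a i)⁻¹) * diagonal b := by
        rw [diagonal_mul_diagonal]
      rw [h2, Matrix.mul_assoc, ← hb, hh, Matrix.mul_assoc (diagonal a), ← Matrix.mul_assoc, h1,
        one_mul]
    · exfalso
      obtain ⟨m, hm, hdist⟩ := Run7.h245.EI.dist_pos hy hB hyB hb
      have hlog : Real.log (1 / Real.exp (-Real.exp (2 * C * R ^ 2 / ν))) =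
          Real.exp (2 * C * R ^ 2 / ν) := by
        rw [one_div, ← Real.exp_neg, neg_neg, Real.log_exp]
      have hexp : Real.exp (C * R ^ 2) ≤
          Real.log (1 / Real.exp (-Real.exp (2 * C * R ^ 2 / ν))) := by
        rw [hlog]
        apply Real.exp_le_exp.2
        rw [le_div_iff₀ hν]
        nlinarith [mul_pos hC0 (by linarith : (0 : ℝ) < R ^ 2)]
      obtain ⟨p, hp0, -, hp⟩ := hmain h _ m (Real.exp_pos _) hclose hexp hm hdist 0
        (by rw [abs_zero]; linarith)
      rw [hlog, Real.log_exp, sub_zero] at hp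
      have h3 : H715R2.FF h (H715R2.iR p) = (∏ i, a i) * form g (γ *ᵥ p) :=
        Run7.h245.EI.FF_move a γ p
      rw [h3, abs_mul, ha, one_mul] at hp
      have hne : γ *ᵥ p ≠ 0 := by
        intro h0
        apply hp0
        have h4 : γ⁻¹ *ᵥ (γ *ᵥ p) = p := by
          rw [mulVec_mulVec, nonsing_inv_mul γ hγ, one_mulVec]
        rw [← h4, h0, mulVec_zero]
      have h5 := hval _ hne
      have h6 : C * R ^ 2 / (2 * C * R ^ 2 / ν) = ν / 2 := by
        have : R ^ 2 ≠ 0 := by positivity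
        field_simp
      rw [h6] at hp
      linarith
  · intro g δ m hδ hg hlog hm hdist τ hτ
    have hCR : 0 < C * R ^ 2 := by positivity
    have hle : Real.exp (C * R ^ 2) ≤ Real.log (1 / δ) :=
      (Real.exp_le_exp.2 (by nlinarith)).trans hlog
    obtain ⟨p, hp0, hp1, hp⟩ := hmain g δ m hδ hg hle hm hdist τ hτ
    refine ⟨p, hp0, hp1, ?_⟩
    have hlog1 : 0 < Real.log (Real.log (1 / δ)) := by
      apply Real.log_pos
      refine lt_of_lt_of_le ?_ hle
      rw [← Real.exp_zero]
      exact Real.exp_lt_exp.2 hCR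
    calc |form g p - τ| = |H715R2.FF g (H715R2.iR p) - τ| := rfl
      _ ≤ C * R ^ 2 / Real.log (Real.log (1 / δ)) := hp
      _ ≤ 2 * C * R ^ 2 / Real.log (Real.log (1 / δ)) := by
          apply div_le_div_of_nonneg_right _ hlog1.le
          nlinarith

end Pool.Agent.Results.MP_edeaa2_an.EffectiveIsolation
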