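import Mathlib
import Pool.Agent.N759.FV.Dense2
import Pool.Agent.Run7.h566.CS.Tup
import Pool.Agent.Run7.h566.CS.Low

/-! # MP_edeaa2_an: the values at almost all tuples of small points are independent

Let `d ≥ 2`, `δ, ν > 0`, and let `T > (d! / d ^ d) δ`, or more generally let `T` be such that every
product of `d` real linear forms with absolute determinant `δ` takes a value of absolute value `< T`
at some nonzero integer point. Let `F` be a product of `d` real linear forms `l_i` with absolute
determinant `δ` and `|F| ≥ ν` at the nonzero integer points, let `a` be positive of product one, and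
let `S` be the set of the nonzero integer points `p` of the parallelepiped `|a_i l_i(p)| ≤ exp x` with
`|F(p)| < T`. It is finite and has at least `c x ^ (d - 1)` members.

Let `P` be a real form of degree `n`, for example `P = F`. Then for all large `x`, with constants
which depend only on `d, n, δ, ν, T` :

(1) if `P` is not proportional to a form over the subfield `K` of the real numbers, then
    `P(p) / P(q)` is in `K` for at most the share `C / x` of the pairs of points of `S`;
(2) if `P` has `k` coefficients which are linearly independent over `ℚ`, then the values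
    `P(p_1), …, P(p_k)` are linearly independent over `ℚ` except for at most the share `C k / x` of
    the tuples `p` in `S ^ k`;
(3) if `P` has `k` coefficients which are algebraically independent over `ℚ`, then the values
    `P(p_1), …, P(p_k)` are algebraically independent over `ℚ` except for at most the share `C k / x`
    of the tuples `p` in `S ^ k`.

In (2) and (3) the number `k` is largest possible, since the values of `P` at the integer points are
integral combinations of the coefficients. For `P = F` this concerns all the forms which violate the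
conjecture of Cassels and Swinnerton-Dyer: by (1) with `K = ℚ` their small values are incommensurable
for almost all pairs of points, and the ratios are transcendental for almost all pairs if `F` is not
proportional to a form with algebraic coefficients.  (For `d = 2` there are uncountably many forms with
`|F| ≥ ν` which are not proportional to integral ones.)

The proof uses the theorem `small_points_coeffs` of the starting file `Pool/Agent/N759/FV/Dense2.lean`:
if the set of small points with `P(p)` in a subgroup `W` has more than `C x ^ (d - 2)` members, then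
`N P` has all its coefficients in `W` for some `N ≥ 1`. It is applied to the subgroups `K P(q)`, to the
span of the first values and to the field of all numbers which are algebraic over them. -/

set_option autoImplicit false

open Matrix

namespace Pool.Agent.Results.MP_edeaa2_an.IndependentValues

open MvPolynomial

/-- the product of the linear forms given by the rows of `g` -/
noncomputable def form {d : ℕ} (g : Matrix (Fin d) (Fin d) ℝ) : MvPolynomial (Fin d) ℝ :=
  ∏ i : Fin d, ∑ j : Fin d, C (g i j) * X j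

/-- the value of `P` at the integer point `p` -/
noncomputable def val {d : ℕ} (P : MvPolynomial (Fin d) ℝ) (p : Fin d → ℤ) : ℝ :=
  eval (fun i => (p i : ℝ)) P

/-- the matrices with absolute determinant `δ` and form at least `ν` in absolute value at the nonzero
integer points -/
def System (d : ℕ) (δ ν : ℝ) : Set (Matrix (Fin d) (Fin d) ℝ) :=
  {g | |g.det| = δ ∧ ∀ p : Fin d → ℤ, p ≠ 0 → ν ≤ |val (form g) p|}

/-- `T` is larger than Minkowski's bound, or every product of `d` linear forms with absolute
determinant `δ` takes a value of absolute value `< T` at a nonzero integer point -/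
def Admissible (d : ℕ) (δ T : ℝ) : Prop :=
  (d.factorial : ℝ) * δ < (d : ℝ) ^ d * T ∨
    ∀ g : Matrix (Fin d) (Fin d) ℝ, |g.det| = δ → ∃ p : Fin d → ℤ, p ≠ 0 ∧ |val (form g) p| < T

/-- the nonzero integer points `p` with `|F(p)| < T` and `|a_i l_i(p)| ≤ exp x` for all `i` -/
def Small {d : ℕ} (g : Matrix (Fin d) (Fin d) ℝ) (T : ℝ) (a : Fin d → ℝ) (x : ℝ) :
    Set (Fin d → ℤ) :=
  {p | p ≠ 0 ∧ |val (form g) p| < T ∧ ∀ i, |a i * ∑ j, g i j * (p j : ℝ)| ≤ Real.exp x}

lemma val_form {d : ℕ} (g : Matrix (Fin d) (Fin d) ℝ) (p : Fin d → ℤ) :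
    val (form g) p = H715R2.FF g (H715R2.iR p) := by
  simp [val, form, H715R2.FF, H715R2.iR]

theorem result (d n : ℕ) (hd : 2 ≤ d) (δ ν T : ℝ) (hδ : 0 < δ) (hν : 0 < ν)
    (hT : Admissible d δ T) :
    ∃ C c x₀ : ℝ, 0 < C ∧ 0 < c ∧ 0 < x₀ ∧ ∀ g ∈ System d δ ν, ∀ a : Fin d → ℝ, (∀ i, 0 < a i) →
      ∏ i, a i = 1 → ∀ x : ℝ, x₀ ≤ x →
      (Small g T a x).Finite ∧ c * x ^ (d - 1) ≤ (Small g T a x).ncard ∧
      ∀ P : MvPolynomial (Fin d) ℝ, P.IsHomogeneous n →
        -- (1) subfields
        (∀ K : Subfield ℝ, (¬ ∃ t : ℝ, t ≠ 0 ∧ ∀ m, t * coeff m P ∈ K) →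
          ({z : (Fin d → ℤ) × (Fin d → ℤ) | z.1 ∈ Small g T a x ∧ z.2 ∈ Small g T a x ∧
            val P z.1 / val P z.2 ∈ K}.ncard : ℝ) ≤ C / x * (Small g T a x).ncard ^ 2) ∧
        -- (2) linear independence
        (∀ k : ℕ, (∃ m : Fin k → (Fin d →₀ ℕ), LinearIndependent ℚ (fun i => coeff (m i) P)) →
          ({z : Fin k → (Fin d → ℤ) | (∀ i, z i ∈ Small g T a x) ∧
            ¬ LinearIndependent ℚ (fun i => val P (z i))}.ncard : ℝ) ≤
              C * k / x * (Small g T a x).ncard ^ k) ∧
        -- (3) algebraic independence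
        (∀ k : ℕ, (∃ m : Fin k → (Fin d →₀ ℕ), AlgebraicIndependent ℚ (fun i => coeff (m i) P)) →
          ({z : Fin k → (Fin d → ℤ) | (∀ i, z i ∈ Small g T a x) ∧
            ¬ AlgebraicIndependent ℚ (fun i => val P (z i))}.ncard : ℝ) ≤
              C * k / x * (Small g T a x).ncard ^ k) := by
  classical
  obtain ⟨r, rfl⟩ : ∃ r, d = r + 1 := ⟨d - 1, by omega⟩
  have hr : 0 < r := by omega
  have hT' : ∀ h : Matrix (Fin (r + 1)) (Fin (r + 1)) ℝ, |h.det| = δ →
      ∃ m : Fin (r + 1) → ℤ, m ≠ 0 ∧ |H715R2.FF h (H715R2.iR m)| < T := by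
    rcases hT with hT | hT
    · exact fun h hh => H715R2.mink_prod (Nat.succ_pos r) δ T hδ hT h hh
    · intro h hh
      obtain ⟨m, hm, hmT⟩ := hT h hh
      exact ⟨m, hm, by rwa [val_form] at hmT⟩
  obtain ⟨C₀, hC₀, H⟩ := Pool.Agent.N759.FV.small_points_coeffs (Λ := T) hr n hδ hν
  obtain ⟨c, x₁, hc, hx₁, L⟩ := Pool.Agent.Run7.h566.CS.many_small hr hδ hν hT'
  refine ⟨2 * C₀ / c, c, x₁, by positivity, hc, by linarith, ?_⟩
  intro g hg a ha0 ha1 x hx
  have hx1 : 1 ≤ x := hx₁.trans hx
  have hx0 : 0 < x := by linarith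
  have hgdet : g.det ≠ 0 := by
    intro h0
    have := hg.1
    rw [h0, abs_zero] at this
    exact hδ.ne this
  have hnu : H715R2.HasNu g ν := fun m hm => by
    have := hg.2 m hm
    rwa [val_form] at this
  have hfin : (Small g T a x).Finite :=
    (Pool.Agent.Run7.h566.CS.small_finite g hgdet a ha0 x).subset fun p hp => hp.2.2
  obtain ⟨S, hS⟩ : ∃ S : Finset (Fin (r + 1) → ℤ), S = hfin.toFinset := ⟨_, rfl⟩
  have hmem : ∀ p, p ∈ S ↔ p ∈ Small g T a x := fun p => by rw [hS, Set.Finite.mem_toFinset]
  have hncard : (Small g T a x).ncard = S.card := by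
    rw [hS, Set.ncard_eq_toFinset_card _ hfin]
  have hlow : c * x ^ r ≤ (S.card : ℝ) := by
    obtain ⟨S₁, h1, h2⟩ := L g hg.1 hnu a ha0 ha1 x hx
    refine h2.trans ?_
    have h3 : S₁ ⊆ S := by
      intro p hp
      rw [hmem]
      obtain ⟨q1, q2, q3⟩ := h1 p hp
      refine ⟨q1, ?_, fun i => q3 i⟩
      rwa [val_form]
    exact_mod_cast Finset.card_le_card h3
  rw [hncard, Nat.add_sub_cancel]
  refine ⟨hfin, hlow, fun P hP => ?_⟩
  -- few points with values in a subgroup
  have few : ∀ W : AddSubgroup ℝ, (¬ ∃ N : ℕ, 0 < N ∧ ∀ m, (N : ℝ) * coeff m P ∈ W) →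
      ∀ S' ⊆ S, (∀ q ∈ S', val P q ∈ W) → (S'.card : ℝ) ≤ C₀ * x ^ (r - 1) := by
    intro W hW S' hS' hq
    by_contra hcard
    obtain ⟨T', hT'', -, N, hN0, -, h⟩ := H g hg.1 hnu x hx1 a ha0 ha1 S' (by
      intro p hp
      obtain ⟨q1, q2, q3⟩ := (hmem p).1 (hS' hp)
      refine ⟨q1, ?_, fun i => q3 i⟩
      rw [← val_form]
      exact q2.le) (not_le.1 hcard)
    refine hW ⟨N, hN0, fun m => ?_⟩
    refine (AddSubgroup.closure_le W).2 ?_ (h P hP m)
    rintro _ ⟨p, hp, rfl⟩
    exact hq p (hT'' (Finset.mem_coe.1 hp))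
  have hB : C₀ * x ^ (r - 1) ≤ C₀ / c * S.card / x := by
    rw [le_div_iff₀ hx0, mul_assoc, ← pow_succ, show r - 1 + 1 = r by omega, div_mul_eq_mul_div,
      le_div_iff₀ hc, mul_assoc]
    refine mul_le_mul_of_nonneg_left ?_ hC₀.le
    rw [mul_comm]
    exact hlow
  have hSc : (0 : ℝ) ≤ S.card := Nat.cast_nonneg _
  have hBnn : 0 ≤ C₀ * x ^ (r - 1) := by positivity
  -- the general statement for tuples
  have gen : ∀ (G : ∀ k : ℕ, (Fin k → ℝ) → Prop), (∀ v : Fin 0 → ℝ, G 0 v) →
      (∀ k K : ℕ, k < K → ∀ v : Fin k → ℝ, G k v → ∀ w : Fin K → ℝ, G K w →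
        ∃ W : Submodule ℚ ℝ, (∀ y, ¬ G (k + 1) (Fin.snoc v y : Fin (k + 1) → ℝ) → y ∈ W) ∧
          ∃ i, w i ∉ W) →
      ∀ k : ℕ, (∃ m : Fin k → (Fin (r + 1) →₀ ℕ), G k (fun i => coeff (m i) P)) →
        ({z : Fin k → (Fin (r + 1) → ℤ) | (∀ i, z i ∈ Small g T a x) ∧
          ¬ G k (fun i => val P (z i))}.ncard : ℝ) ≤ 2 * C₀ / c * k / x * S.card ^ k := by
    rintro G hG0 hstep k ⟨m, hm⟩
    have hfE : {z : Fin k → (Fin (r + 1) → ℤ) | (∀ i, z i ∈ Small g T a x) ∧
        ¬ G k (fun i => val P (z i))}.Finite := by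
      refine Set.Finite.subset (Set.Finite.pi' (t := fun _ : Fin k => Small g T a x)
        (fun _ => hfin)) ?_
      exact fun z hz => hz.1
    rw [Set.ncard_eq_toFinset_card _ hfE]
    have h1 := Pool.Agent.Run7.h566.CS.tuples S (fun k z => G k (fun i => val P (z i))) k
      (C₀ * x ^ (r - 1)) hBnn (fun p => hG0 _) (by
        intro j hj p hp hGp S' hS' hq
        obtain ⟨W, hW1, i, hi⟩ := hstep j k hj _ hGp _ hm
        refine few W.toAddSubgroup ?_ S' hS' ?_
        · rintro ⟨N, hN0, hN⟩
          apply hi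
          have h2 : (N : ℝ) * coeff (m i) P ∈ W := hN (m i)
          have h3 := W.smul_mem ((N : ℚ)⁻¹) h2
          have hN' : (N : ℝ) ≠ 0 := by exact_mod_cast hN0.ne'
          have h4 : ((N : ℚ)⁻¹) • ((N : ℝ) * coeff (m i) P) = coeff (m i) P := by
            rw [Rat.smul_def]
            push_cast
            field_simp
          rwa [h4] at h3
        · intro q hqS
          apply hW1
          have h2 := hq q hqS
          have h3 : (fun i => val P ((Fin.snoc p q : Fin (j + 1) → (Fin (r + 1) → ℤ)) i)) =
              (Fin.snoc (fun i => val P (p i)) (val P q) : Fin (j + 1) → ℝ) := by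
            funext i
            refine Fin.lastCases ?_ (fun l => ?_) i
            · rw [Fin.snoc_last, Fin.snoc_last]
            · rw [Fin.snoc_castSucc, Fin.snoc_castSucc]
          rwa [h3] at h2) k le_rfl hfE.toFinset (by
        intro z hz
        rw [Set.Finite.mem_toFinset] at hz
        exact ⟨fun i => (hmem _).2 (hz.1 i), hz.2⟩)
    refine h1.trans ?_
    rcases Nat.eq_zero_or_pos k with hk | hk
    · subst hk; simp
    · have h2 : (S.card : ℝ) ^ k = S.card * (S.card : ℝ) ^ (k - 1) := by
        rw [← pow_succ']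
        congr 1
        omega
      calc (k : ℝ) * (C₀ * x ^ (r - 1)) * (S.card : ℝ) ^ (k - 1)
          ≤ k * (C₀ / c * S.card / x) * (S.card : ℝ) ^ (k - 1) := by gcongr
        _ = (C₀ / c * k / x) * S.card ^ k := by rw [h2]; ring
        _ ≤ 2 * (C₀ / c * k / x) * S.card ^ k := by
            refine mul_le_mul_of_nonneg_right ?_ (by positivity)
            have : 0 ≤ C₀ / c * k / x := by positivity
            linarith
        _ = 2 * C₀ / c * k / x * S.card ^ k := by ring
  refine ⟨?_, ?_, ?_⟩
  · -- (1)
    intro K hK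
    have hfE : {z : (Fin (r + 1) → ℤ) × (Fin (r + 1) → ℤ) | z.1 ∈ Small g T a x ∧
        z.2 ∈ Small g T a x ∧ val P z.1 / val P z.2 ∈ K}.Finite :=
      Set.Finite.subset (hfin.prod hfin) fun z hz => ⟨hz.1, hz.2.1⟩
    rw [Set.ncard_eq_toFinset_card _ hfE]
    set E := hfE.toFinset with hE
    have hEmem : ∀ z ∈ E, z.1 ∈ S ∧ z.2 ∈ S ∧ val P z.1 / val P z.2 ∈ K := by
      intro z hz
      rw [hE, Set.Finite.mem_toFinset] at hz
      exact ⟨(hmem _).2 hz.1, (hmem _).2 hz.2.1, hz.2.2⟩
    have hc2 : E.card = ∑ q ∈ S, (E.filter fun z => z.2 = q).card :=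
      Finset.card_eq_sum_card_fiberwise fun z hz => (hEmem z (Finset.mem_coe.1 hz)).2.1
    have hfib : ∀ q ∈ S, ((E.filter fun z => z.2 = q).card : ℝ) ≤
        C₀ * x ^ (r - 1) + if val P q = 0 then (S.card : ℝ) else 0 := by
      intro q hq
      set U := (E.filter fun z => z.2 = q).image Prod.fst with hU
      have h1 : (E.filter fun z => z.2 = q).card = U.card := by
        rw [hU, Finset.card_image_of_injOn]
        intro z hz z' hz' h
        rw [Finset.mem_coe, Finset.mem_filter] at hz hz'
        exact Prod.ext h (hz.2.trans hz'.2.symm)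
      have hUS : U ⊆ S := by
        intro p hp
        obtain ⟨z, hz, rfl⟩ := Finset.mem_image.1 hp
        exact (hEmem z (Finset.mem_filter.1 hz).1).1
      rw [h1]
      by_cases h0 : val P q = 0
      · rw [if_pos h0]
        have : (U.card : ℝ) ≤ S.card := by exact_mod_cast Finset.card_le_card hUS
        linarith
      · rw [if_neg h0, add_zero]
        refine few (K.toAddSubgroup.map (AddMonoidHom.mulRight (val P q))) ?_ U hUS ?_
        · rintro ⟨N, hN0, hN⟩
          apply hK
          have hN' : (N : ℝ) ≠ 0 := by exact_mod_cast hN0.ne'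
          refine ⟨N / val P q, div_ne_zero hN' h0, fun m => ?_⟩
          obtain ⟨κ, hκ, hκ'⟩ := hN m
          have h2 : κ * val P q = N * coeff m P := hκ'
          have h3 : (N : ℝ) / val P q * coeff m P = κ := by
            field_simp
            linarith
          rw [h3]
          exact hκ
        · intro p hp
          obtain ⟨z, hz, rfl⟩ := Finset.mem_image.1 hp
          have h2 := Finset.mem_filter.1 hz
          have h3 := (hEmem z h2.1).2.2
          rw [h2.2] at h3
          refine ⟨_, h3, ?_⟩
          show val P z.1 / val P q * val P q = val P z.1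
          field_simp
    have hzero : ((S.filter fun q => val P q = 0).card : ℝ) ≤ C₀ * x ^ (r - 1) := by
      refine few ⊥ ?_ _ (Finset.filter_subset _ _) ?_
      · rintro ⟨N, hN0, hN⟩
        apply hK
        refine ⟨1, one_ne_zero, fun m => ?_⟩
        have h1 := hN m
        rw [AddSubgroup.mem_bot] at h1
        have hN' : (N : ℝ) ≠ 0 := by exact_mod_cast hN0.ne'
        rcases mul_eq_zero.1 h1 with h | h
        · exact absurd h hN'
        · rw [h, mul_zero]
          exact K.zero_mem
      · intro q hq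
        rw [AddSubgroup.mem_bot]
        exact (Finset.mem_filter.1 hq).2
    have htot : (E.card : ℝ) ≤ 2 * (C₀ * x ^ (r - 1)) * S.card := by
      rw [hc2]
      push_cast
      calc ∑ q ∈ S, ((E.filter fun z => z.2 = q).card : ℝ)
          ≤ ∑ q ∈ S, (C₀ * x ^ (r - 1) + if val P q = 0 then (S.card : ℝ) else 0) :=
            Finset.sum_le_sum hfib
        _ = S.card * (C₀ * x ^ (r - 1)) + (S.filter fun q => val P q = 0).card * S.card := by
            rw [Finset.sum_add_distrib, Finset.sum_const, nsmul_eq_mul, ← Finset.sum_filter,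
              Finset.sum_const, nsmul_eq_mul]
        _ ≤ S.card * (C₀ * x ^ (r - 1)) + (C₀ * x ^ (r - 1)) * S.card := by
            gcongr
        _ = 2 * (C₀ * x ^ (r - 1)) * S.card := by ring
    refine htot.trans ?_
    calc 2 * (C₀ * x ^ (r - 1)) * (S.card : ℝ) ≤ 2 * (C₀ / c * S.card / x) * S.card := by gcongr
      _ = 2 * C₀ / c / x * (S.card : ℝ) ^ 2 := by ring
  · -- (2)
    exact gen (fun k v => LinearIndependent ℚ v) (fun v => linearIndependent_empty_type)
      fun k K hk v hv w hw => Pool.Agent.Run7.h566.CS.lin_step hk v hv w hw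
  · -- (3)
    refine gen (fun k v => AlgebraicIndependent ℚ v) (fun v => ?_)
      fun k K hk v hv w hw => Pool.Agent.Run7.h566.CS.alg_step hk v hv w hw
    rw [algebraicIndependent_empty_type_iff]
    exact (algebraMap ℚ ℝ).injective

end Pool.Agent.Results.MP_edeaa2_an.IndependentValues
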