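import Mathlib
import Pool.Agent.Run7.h330.TP.Quad
import Pool.Agent.Run7.h330.TP.Slope

set_option autoImplicit false

/-!
# MP_edeaa2_an: tensor products of binary lattices

Let `g_1, …, g_k` be real invertible `2 × 2` matrices and let `ξ_t` be a limit slope of `g_t`: some
limit of matrices `diag(a_0, a_1) g_t γ`, `a_0 a_1 = ±1`, `γ ∈ GL_2(ℤ)`, has a row proportional to
`(ξ_t, 1)`.  If a row of `g_t` is proportional to `(α, 1)`, then `α` is a limit slope, and so are all
the limit points of the complete quotients of the continued fraction of `α`, and also `0` if the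
partial quotients of `α` are unbounded.

1. If the `2 ^ k` products of the `ξ_t` are linearly dependent over `ℚ` (for instance if two of the
`ξ_t` are equal, as for continued fractions with arbitrarily long common blocks, or equivalent under
`GL_2(ℚ)`), then the product of the linear forms given by the rows of `g_1 ⊗ ⋯ ⊗ g_k ⊗ G` takes
arbitrarily small values at nonzero integer points, for every real square matrix `G`.

2. Let `k ≥ 2`, let the products be linearly independent over `ℚ` and let the `ξ_t` lie in a real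
number field of degree at most `2 ^ k` (for instance, let each be a quadratic irrational number).
Then the values of the product `F` of the linear forms given by the rows of `g_1 ⊗ ⋯ ⊗ g_k` at the
nonzero integer points are dense in `ℝ`, or `F` is proportional to an integral form and the slopes
of both rows of all `g_t` are rational or quadratic irrational numbers (or infinite).

So the conjecture of Cassels and Swinnerton-Dyer is true for `g_1 ⊗ ⋯ ⊗ g_k`, `k ≥ 2`, if the `g_t`
have limit slopes in a real number field of degree at most `2 ^ k`.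
-/

open Matrix Filter Topology Kronecker
open Pool.Agent.N759.CFr (cq pq)
open Pool.Agent.Run7.h330.TP

namespace Pool.Agent.Results.MP_edeaa2_an.TensorProductsOfBinaryLattices

/-- **Products of linear forms: tensor products of binary lattices.** -/
theorem result :
    (∀ g : Matrix (Fin 2) (Fin 2) ℝ, g.det ≠ 0 → ∀ (i : Fin 2) (α : ℝ), g i 0 = α * g i 1 →
      LimitSlope g α ∧ (Irrational α → (∀ ξ : ℝ, MapClusterPt ξ atTop (cq α) → LimitSlope g ξ) ∧
        ((∀ N : ℕ, ∃ k, N ≤ k ∧ (N : ℤ) ≤ pq α k) → LimitSlope g 0))) ∧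
    (∀ (k n : ℕ), 0 < n → ∀ (g : Fin k → Matrix (Fin 2) (Fin 2) ℝ) (ξ : Fin k → ℝ),
      (∀ t, LimitSlope (g t) (ξ t)) →
      (∃ y : (Fin k → Fin 2) → ℤ, y ≠ 0 ∧ ∑ j, prods ξ j * (y j : ℝ) = 0) →
      ∀ (G : Matrix (Fin n) (Fin n) ℝ) (ε : ℝ), 0 < ε →
        ∃ x : (Fin k → Fin 2) × Fin n → ℤ, x ≠ 0 ∧
          |∏ i, ((tens g ⊗ₖ G) *ᵥ fun j => (x j : ℝ)) i| < ε) ∧
    (∀ k : ℕ, 2 ≤ k → ∀ (g : Fin k → Matrix (Fin 2) (Fin 2) ℝ) (ξ : Fin k → ℝ),
      (∀ t, (g t).det ≠ 0) → (∀ t, LimitSlope (g t) (ξ t)) →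
      ∀ K : IntermediateField ℚ ℝ, FiniteDimensional ℚ K → Module.finrank ℚ K ≤ 2 ^ k →
      (∀ t, ξ t ∈ K) →
      (¬ ∃ y : (Fin k → Fin 2) → ℤ, y ≠ 0 ∧ ∑ j, prods ξ j * (y j : ℝ) = 0) →
      (∀ v ε : ℝ, 0 < ε → ∃ x : (Fin k → Fin 2) → ℤ, x ≠ 0 ∧
        |(∏ i, (tens g *ᵥ fun j => (x j : ℝ)) i) - v| < ε) ∨
      (PropIntegral (tens g) ∧ ∀ t i, ∃ a b c : ℚ, (a ≠ 0 ∨ b ≠ 0 ∨ c ≠ 0) ∧
        (a : ℝ) * (g t i 0) ^ 2 + b * (g t i 0 * g t i 1) + c * (g t i 1) ^ 2 = 0)) := by
  refine ⟨fun g hdet i α hg => slopes g hdet i α hg, ?_, ?_⟩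
  · rintro k n hn g ξ hξ ⟨y, hy, h0⟩ G ε hε
    exact relation_small hn hξ hy h0 G hε
  · intro k hk g ξ hg hξ K hfin hK hmem hrel
    rcases tensor_alg hk hg hξ K hfin hK hmem with h1 | ⟨-, h2 | h2⟩
    · exact Or.inr ⟨h1, fun t i => quad_of_integral hg h1 t i⟩
    · exact absurd h2 hrel
    · exact Or.inl h2

end Pool.Agent.Results.MP_edeaa2_an.TensorProductsOfBinaryLattices
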